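import Pool.Agent.H482R3.EA.Stm

set_option autoImplicit false

/-! Task XT: a homomorphism detecting positions inside one residue class. -/

namespace Pool.Agent.H466R2.EA

open Pool.Agent.H482R3.EA

/-- shift of the first coordinate -/
def xtQ : Equiv.Perm (ℤ × ℤ) where
  toFun p := (p.1 - 1, p.2)
  invFun p := (p.1 + 1, p.2)
  left_inv p := by ext <;> simp
  right_inv p := by ext <;> simp

/-- shift of the second coordinate over `0` -/
def xtY : Equiv.Perm (ℤ × ℤ) where
  toFun p := (p.1, p.2 + if p.1 = 0 then 1 else 0)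
  invFun p := (p.1, p.2 - if p.1 = 0 then 1 else 0)
  left_inv p := by ext <;> simp
  right_inv p := by ext <;> simp

theorem xtQ_zpow (n : ℤ) : ∀ p : ℤ × ℤ, (xtQ ^ n) p = (p.1 - n, p.2) := by
  induction n using Int.induction_on with
  | zero => intro p; simp
  | succ n ih =>
    intro p
    rw [zpow_add_one, Equiv.Perm.mul_apply, ih]
    show ((p.1 - 1) - (n : ℤ), p.2) = _
    congr 1
    ring
  | pred n ih =>
    intro p
    rw [zpow_sub_one, Equiv.Perm.mul_apply, ih]
    show ((p.1 + 1) - (-(n : ℤ)), p.2) = _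
    congr 1
    ring

theorem xtY_zpow (n : ℤ) : ∀ p : ℤ × ℤ, (xtY ^ n) p = (p.1, p.2 + if p.1 = 0 then n else 0) := by
  induction n using Int.induction_on with
  | zero => intro p; simp
  | succ n ih =>
    intro p
    rw [zpow_add_one, Equiv.Perm.mul_apply, ih]
    show (p.1, (p.2 + if p.1 = 0 then 1 else 0) + if p.1 = 0 then (n : ℤ) else 0) = _
    congr 1
    split_ifs <;> ring
  | pred n ih =>
    intro p
    rw [zpow_sub_one, Equiv.Perm.mul_apply, ih]
    show (p.1, (p.2 - if p.1 = 0 then 1 else 0) + if p.1 = 0 then (-(n : ℤ)) else 0) = _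
    congr 1
    split_ifs <;> ring

/-- telescoping products -/
theorem xt_tele {G : Type} [Group G] (A : ℕ → G) (n : ℕ) :
    (List.ofFn fun s : Fin n => (A s)⁻¹ * A ((s : ℕ) + 1)).prod = (A 0)⁻¹ * A n := by
  induction n with
  | zero => simp
  | succ n ih =>
    rw [List.ofFn_succ', List.concat_eq_append, List.prod_append, List.prod_singleton]
    have : (List.ofFn fun i : Fin n =>
        (A ((Fin.castSucc i : Fin (n + 1)) : ℕ))⁻¹ * A (((Fin.castSucc i : Fin (n + 1)) : ℕ) + 1)).prod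
        = (A 0)⁻¹ * A n := by
      simpa using ih
    rw [this]
    simp [mul_assoc]

/-- the partial products -/
def xtA (k r s : ℕ) : Equiv.Perm (ℤ × ℤ) :=
  if s = 0 then 1 else if s ≤ r then xtQ * xtY⁻¹ else if r = 0 ∧ s < k then xtY else xtQ

theorem xtA_zero (k r : ℕ) : xtA k r 0 = 1 := by simp [xtA]

theorem xtA_k (k r : ℕ) (hk : 2 ≤ k) (hr : r < k) : xtA k r k = xtQ := by
  unfold xtA
  rw [if_neg (by omega), if_neg (by omega), if_neg (by omega)]

theorem xtA_r (k r : ℕ) (hk : 2 ≤ k) : (xtA k r r)⁻¹ * xtA k r (r + 1) = xtY := by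
  unfold xtA
  by_cases h0 : r = 0
  · subst h0
    rw [if_pos rfl, if_neg (by omega), if_neg (by omega), if_pos ⟨rfl, by omega⟩]
    simp
  · rw [if_neg h0, if_pos le_rfl, if_neg (by omega), if_neg (by omega), if_neg (fun h => h0 h.1)]
    group

theorem t_XT : S_XT := by
  intro k r hk hr0 hrk
  obtain ⟨r', rfl⟩ := Int.eq_ofNat_of_zero_le hr0
  have hrk' : r' < k := by exact_mod_cast hrk
  have hk0 : 0 < k := by omega
  set θ : FreeGroup (Fin k) →* Equiv.Perm (ℤ × ℤ) :=
    FreeGroup.lift fun s : Fin k => (xtA k r' s)⁻¹ * xtA k r' ((s : ℕ) + 1) with hθ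
  have hP : θ (PP k) = xtQ := by
    unfold PP
    rw [map_list_prod, List.map_ofFn]
    have : (θ ∘ fun s : Fin k => FreeGroup.of s) =
        fun s : Fin k => (xtA k r' s)⁻¹ * xtA k r' ((s : ℕ) + 1) := by
      funext s
      simp [hθ]
    rw [this, xt_tele, xtA_zero, xtA_k k r' hk hrk']
    simp
  have hof : θ (FreeGroup.of ⟨r', hrk'⟩) = xtY := by
    rw [hθ, FreeGroup.lift_apply_of]
    exact xtA_r k r' hk
  refine ⟨θ, fun j a p => ?_⟩
  have hx : xx k ((r' : ℤ) + k * j) = PP k ^ (-j) * FreeGroup.of ⟨r', hrk'⟩ * PP k ^ j := by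
    have e1 : ((r' : ℤ) + k * j) / k = j := by
      rw [Int.add_mul_ediv_left _ _ (by omega : (k : ℤ) ≠ 0), Int.ediv_eq_zero_of_lt hr0 hrk,
        zero_add]
    have e2 : ((r' : ℤ) + k * j) % k = r' := by
      rw [Int.add_mul_emod_self_left, Int.emod_eq_of_lt hr0 hrk]
    unfold xx
    rw [dif_pos hk0]
    simp only [e1, e2, Int.toNat_natCast]
  have hθx : θ (xx k ((r' : ℤ) + k * j) ^ a) = xtQ ^ (-j) * xtY ^ a * xtQ ^ j := by
    rw [map_zpow, hx, map_mul, map_mul, map_zpow, map_zpow, hP, hof]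
    have : xtQ ^ (-j) * xtY * xtQ ^ j = xtQ ^ (-j) * xtY * (xtQ ^ (-j))⁻¹ := by
      rw [zpow_neg, inv_inv]
    rw [this, conj_zpow, zpow_neg, inv_inv]
  show θ (xx k ((r' : ℤ) + k * j) ^ a) p = _
  rw [hθx, Equiv.Perm.mul_apply, Equiv.Perm.mul_apply, xtQ_zpow, xtY_zpow, xtQ_zpow]
  ext
  · simp
  · simp only [sub_eq_zero]

end Pool.Agent.H466R2.EA
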